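import Mathlib

/-!
# Filtered Varchenko-Gelfand algebras in characteristic two do not determine the oriented matroid
-/

set_option autoImplicit false

open scoped Pointwise

namespace Pool.Agent.Results.MP_157dc7_co.CharTwoPairs

/-- A real central arrangement with hyperplanes indexed by `ι`: nonzero linear forms, no two of them
proportional. -/
structure Arrangement (ι V : Type) [AddCommGroup V] [Module ℝ V] where
  /-- the linear forms -/
  form : ι → V →ₗ[ℝ] ℝ
  /-- they are nonzero -/
  ne_zero : ∀ i, form i ≠ 0
  /-- the hyperplanes are distinct -/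
  distinct : ∀ i j, i ≠ j → ∀ c : ℝ, form i ≠ c • form j

namespace Arrangement

variable {ι V : Type} [AddCommGroup V] [Module ℝ V]

/-- The complement of the union of the hyperplanes. -/
def compl (A : Arrangement ι V) : Set V := {x | ∀ i, A.form i x ≠ 0}

/-- The chambers: the connected components of the complement. -/
abbrev Chamber [TopologicalSpace V] (A : Arrangement ι V) : Type := ConnectedComponents A.compl

open Classical in
/-- The Heaviside function of the `i`-th form: it is `1` on the chambers on which the form is
positive, and `0` on the others. -/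
noncomputable def heaviside [TopologicalSpace V] (A : Arrangement ι V) (R : Type) [CommRing R]
    (i : ι) : A.Chamber → R :=
  fun C => if ∀ x : A.compl, (x : ConnectedComponents A.compl) = C → 0 < A.form i x.1 then 1 else 0

/-- The degree filtration of the Varchenko-Gelfand algebra `A.Chamber → R`: the span of all products
of at most `k` Heaviside functions. -/
noncomputable def filtration [TopologicalSpace V] (A : Arrangement ι V) (R : Type) [CommRing R]
    (k : ℕ) : Submodule R (A.Chamber → R) :=
  Submodule.span R {f | ∃ s : Multiset ι, Multiset.card s ≤ k ∧ f = (s.map (A.heaviside R)).prod}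

/-- The covectors of the oriented matroid of the arrangement. -/
def covectors (A : Arrangement ι V) : Set (ι → SignType) :=
  {s | ∃ x : V, ∀ i, s i = SignType.sign (A.form i x)}

end Arrangement

/-- The Varchenko-Gelfand algebras over `R` are isomorphic as filtered `R`-algebras. -/
def FilteredIso {ι V ι' V' : Type} [AddCommGroup V] [Module ℝ V] [TopologicalSpace V]
    [AddCommGroup V'] [Module ℝ V'] [TopologicalSpace V'] (A : Arrangement ι V)
    (B : Arrangement ι' V') (R : Type) [CommRing R] : Prop :=
  ∃ φ : (A.Chamber → R) ≃ₐ[R] (B.Chamber → R),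
    ∀ k, (A.filtration R k).map φ.toLinearMap = B.filtration R k

/-- The oriented matroids are isomorphic: they agree after a bijection of the ground sets and a
reorientation. -/
def OMIso {ι V ι' V' : Type} [AddCommGroup V] [Module ℝ V]
    [AddCommGroup V'] [Module ℝ V'] (A : Arrangement ι V) (B : Arrangement ι' V') : Prop :=
  ∃ (σ : ι ≃ ι') (ε : ι → SignType), (∀ i, ε i ≠ 0) ∧
    ∀ s : ι' → SignType, s ∈ B.covectors ↔ (fun i => ε i * s (σ i)) ∈ A.covectors

/-! ### The filtration in terms of powers -/

section Filt

variable {ι V : Type} [AddCommGroup V] [Module ℝ V] [TopologicalSpace V]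

/-- The span of `1` and the Heaviside functions. -/
noncomputable def lin (A : Arrangement ι V) (R : Type) [CommRing R] :
    Submodule R (A.Chamber → R) :=
  Submodule.span R ({1} ∪ Set.range (A.heaviside R))

theorem one_mem_lin (A : Arrangement ι V) (R : Type) [CommRing R] : 1 ∈ lin A R :=
  Submodule.subset_span (Or.inl rfl)

theorem heaviside_mem_lin (A : Arrangement ι V) (R : Type) [CommRing R] (i : ι) :
    A.heaviside R i ∈ lin A R :=
  Submodule.subset_span (Or.inr ⟨i, rfl⟩)

theorem filtration_eq (A : Arrangement ι V) (R : Type) [CommRing R] (k : ℕ) :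
    A.filtration R k = lin A R ^ k := by
  apply le_antisymm
  · rw [Arrangement.filtration, Submodule.span_le]
    rintro _ ⟨s, hs, rfl⟩
    induction k generalizing s with
    | zero =>
      have : s = 0 := by simpa using hs
      subst this
      simp only [Multiset.map_zero, Multiset.prod_zero, pow_zero, SetLike.mem_coe]
      exact Submodule.one_le.1 le_rfl
    | succ k ih =>
      rw [pow_succ]
      induction s using Multiset.induction_on with
      | empty =>
        have h1 := ih 0 (by simp)
        rw [Multiset.map_zero, Multiset.prod_zero] at h1 ⊢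
        have := Submodule.mul_mem_mul h1 (one_mem_lin A R)
        rwa [mul_one] at this
      | cons a t _ =>
        rw [Multiset.map_cons, Multiset.prod_cons, mul_comm (A.heaviside R a)]
        rw [Multiset.card_cons] at hs
        exact Submodule.mul_mem_mul (ih t (by omega)) (heaviside_mem_lin A R a)
  · rw [lin, Submodule.span_pow, Submodule.span_le]
    rintro f hf
    apply Submodule.subset_span
    induction k generalizing f with
    | zero =>
      rw [pow_zero] at hf
      refine ⟨0, by simp, ?_⟩
      simpa using hf
    | succ k ih =>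
      rw [pow_succ, Set.mem_mul] at hf
      obtain ⟨g, hg, h, hh, rfl⟩ := hf
      obtain ⟨s, hs, rfl⟩ := ih hg
      rcases hh with rfl | ⟨i, rfl⟩
      · exact ⟨s, by omega, by rw [mul_one]⟩
      · refine ⟨i ::ₘ s, by rw [Multiset.card_cons]; omega, ?_⟩
        rw [Multiset.map_cons, Multiset.prod_cons, mul_comm]

end Filt

/-- A bijection of the chambers for which the Heaviside functions correspond up to affine
combinations induces a filtered isomorphism. -/
theorem filteredIso_of_equiv {ι V ι' V' : Type} [AddCommGroup V] [Module ℝ V] [TopologicalSpace V]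
    [AddCommGroup V'] [Module ℝ V'] [TopologicalSpace V'] (A : Arrangement ι V)
    (B : Arrangement ι' V') (R : Type) [CommRing R] (e : A.Chamber ≃ B.Chamber)
    (h1 : ∀ i, (fun C => A.heaviside R i (e.symm C)) ∈ lin B R)
    (h2 : ∀ j, (fun C => B.heaviside R j (e C)) ∈ lin A R) : FilteredIso A B R := by
  let φ : (A.Chamber → R) ≃ₐ[R] (B.Chamber → R) :=
    { toFun := fun f C => f (e.symm C)
      invFun := fun f C => f (e C)
      left_inv := fun f => by
        funext C
        simp
      right_inv := fun f => by
        funext C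
        simp
      map_mul' := fun f g => rfl
      map_add' := fun f g => rfl
      commutes' := fun r => rfl }
  refine ⟨φ, fun k => ?_⟩
  rw [filtration_eq, filtration_eq]
  have hlin : (lin A R).map φ.toLinearMap = lin B R := by
    apply le_antisymm
    · rw [lin, Submodule.map_span, Submodule.span_le]
      rintro _ ⟨f, rfl | ⟨i, rfl⟩, rfl⟩
      · exact one_mem_lin B R
      · exact h1 i
    · conv_lhs => rw [lin]
      rw [Submodule.span_le]
      rintro f (rfl | ⟨j, rfl⟩)
      · exact ⟨1, one_mem_lin A R, rfl⟩
      · refine ⟨_, h2 j, ?_⟩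
        funext C
        show B.heaviside R j (e (e.symm C)) = _
        rw [e.apply_symm_apply]
  rw [← hlin]
  exact Submodule.map_pow (lin A R) φ.toAlgHom k

/-! ### Values of the Heaviside functions -/

section Val

variable {ι V : Type} [AddCommGroup V] [Module ℝ V] [TopologicalSpace V] [IsTopologicalAddGroup V]
  [ContinuousSMul ℝ V] [T2Space V] [FiniteDimensional ℝ V]

theorem pos_iff_of_eq (A : Arrangement ι V) (i : ι) {x y : A.compl}
    (h : (x : ConnectedComponents A.compl) = y) : 0 < A.form i x.1 ↔ 0 < A.form i y.1 := by
  have hcont : Continuous fun z : A.compl => A.form i z.1 :=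
    (LinearMap.continuous_of_finiteDimensional (A.form i)).comp continuous_subtype_val
  have hclopen : IsClopen {z : A.compl | 0 < A.form i z.1} := by
    constructor
    · have : {z : A.compl | 0 < A.form i z.1} = {z : A.compl | 0 ≤ A.form i z.1} := by
        ext z
        have := z.2 i
        constructor
        · intro h
          exact le_of_lt (show 0 < A.form i z.1 from h)
        · intro h
          exact lt_of_le_of_ne (show 0 ≤ A.form i z.1 from h) this.symm
      rw [this]
      exact isClosed_le continuous_const hcont
    · exact isOpen_lt continuous_const hcont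
  rw [ConnectedComponents.coe_eq_coe'] at h
  constructor
  · intro hx
    by_contra hy
    have h1 := hclopen.compl.connectedComponent_subset (x := y) hy h
    exact h1 hx
  · intro hy
    exact hclopen.connectedComponent_subset (x := y) hy h

open Classical in
theorem heaviside_coe (A : Arrangement ι V) (R : Type) [CommRing R] (i : ι) (x : A.compl) :
    A.heaviside R i (x : ConnectedComponents A.compl) = if 0 < A.form i x.1 then 1 else 0 := by
  unfold Arrangement.heaviside
  by_cases h : 0 < A.form i x.1
  · rw [if_pos h, if_pos]
    intro y hy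
    exact (pos_iff_of_eq A i hy).2 h
  · rw [if_neg h, if_neg]
    intro h1
    exact h (h1 x rfl)

end Val

/-! ### The two arrangements -/

/-- The ambient space: two copies of `ℝ ^ (m + 1)`. -/
abbrev Space (m : ℕ) : Type := (Fin (m + 1) → ℝ) × (Fin (m + 1) → ℝ)

/-- The index set of the `2 m + 4` hyperplanes. -/
abbrev Idx (m : ℕ) : Type := Option (Fin (m + 1)) ⊕ Option (Fin (m + 1))

/-- The coordinate forms of the first copy. -/
def cx {m : ℕ} (i : Fin (m + 1)) : Space m →ₗ[ℝ] ℝ := (LinearMap.proj i).comp (LinearMap.fst ℝ _ _)

/-- The coordinate forms of the second copy. -/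
def cy {m : ℕ} (i : Fin (m + 1)) : Space m →ₗ[ℝ] ℝ := (LinearMap.proj i).comp (LinearMap.snd ℝ _ _)

theorem cx_apply {m : ℕ} (i : Fin (m + 1)) (p : Space m) : cx i p = p.1 i := rfl
theorem cy_apply {m : ℕ} (i : Fin (m + 1)) (p : Space m) : cy i p = p.2 i := rfl

/-- The forms of the first arrangement: coordinates and coordinate sums of the two copies. -/
def formA {m : ℕ} : Idx m → Space m →ₗ[ℝ] ℝ
  | Sum.inl (some i) => cx i
  | Sum.inl none => ∑ i, cx i
  | Sum.inr (some i) => cy i
  | Sum.inr none => ∑ i, cy i

/-- The forms of the second arrangement: in the sum of the coordinates of the second copy the first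
coordinate is replaced by the first coordinate of the first copy. -/
def formB {m : ℕ} : Idx m → Space m →ₗ[ℝ] ℝ
  | Sum.inl (some i) => cx i
  | Sum.inl none => ∑ i, cx i
  | Sum.inr (some i) => cy i
  | Sum.inr none => cx 0 + ∑ i : Fin m, cy i.succ

theorem card_gt {m : ℕ} {S : Finset (Idx m)} (f : Fin (m + 2) → Idx m)
    (hf : Function.Injective f) (h : ∀ i, f i ∈ S) : ¬ S.card ≤ m + 1 := by
  intro h1
  have h2 := Finset.card_le_card (s := Finset.univ.image f) (t := S) (by
    intro x hx
    obtain ⟨i, _, rfl⟩ := Finset.mem_image.1 hx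
    exact h i)
  rw [Finset.card_image_of_injective _ hf, Finset.card_univ, Fintype.card_fin] at h2
  omega

/-- The points `none, some 0, ..., some m` of one half of the index set. -/
def half {m : ℕ} (g : Option (Fin (m + 1)) → Idx m) : Fin (m + 2) → Idx m :=
  Fin.cons (g none) (fun i => g (some i))

theorem half_injective {m : ℕ} {g : Option (Fin (m + 1)) → Idx m} (hg : Function.Injective g) :
    Function.Injective (half g) := by
  intro a b
  refine Fin.cases ?_ (fun i => ?_) a
  · refine Fin.cases (fun _ => rfl) (fun j => ?_) b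
    intro h
    simp only [half, Fin.cons_zero, Fin.cons_succ] at h
    exact absurd (hg h) (by simp)
  · refine Fin.cases ?_ (fun j => ?_) b
    · intro h
      simp only [half, Fin.cons_zero, Fin.cons_succ] at h
      exact absurd (hg h) (by simp)
    · intro h
      simp only [half, Fin.cons_succ] at h
      have := Option.some_injective _ (hg h)
      rw [this]

theorem half_mem {m : ℕ} {g : Option (Fin (m + 1)) → Idx m} {S : Finset (Idx m)}
    (h0 : g none ∈ S) (h : ∀ i, g (some i) ∈ S) (i : Fin (m + 2)) : half g i ∈ S := by
  refine Fin.cases ?_ (fun j => ?_) i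
  · simpa [half] using h0
  · simpa [half] using h j

theorem indepA {m : ℕ} (S : Finset (Idx m)) (hS : S.card ≤ m + 1) :
    LinearIndepOn ℝ (formA (m := m)) (S : Set (Idx m)) := by
  classical
  rw [linearIndepOn_finset_iff]
  intro g hg i hi
  set c : Idx m → ℝ := fun i => if i ∈ S then g i else 0 with hc
  have hsum : ∑ i, c i • formA i = 0 := by
    rw [← hg, ← Finset.sum_subset (Finset.subset_univ S)]
    · exact Finset.sum_congr rfl fun i hi => by rw [hc]; simp [hi]
    · intro i _ hi
      simp [hc, hi]
  have hmem : ∀ i, c i ≠ 0 → i ∈ S := by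
    intro i hi
    by_contra h
    exact hi (by simp [hc, h])
  have heval : ∀ p : Space m, ∑ i, c i * formA i p = 0 := by
    intro p
    have := LinearMap.congr_fun hsum p
    simpa [LinearMap.sum_apply] using this
  have hx : ∀ i : Fin (m + 1), c (Sum.inl (some i)) + c (Sum.inl none) = 0 := by
    intro i
    have := heval (Pi.single i 1, 0)
    simp only [Fintype.sum_sum_type, Fintype.sum_option, formA, cx_apply, cy_apply,
      LinearMap.sum_apply, Pi.zero_apply, Finset.sum_const_zero, mul_zero, add_zero] at this
    simp only [Pi.single_apply, mul_ite, mul_one, mul_zero, Finset.sum_ite_eq', Finset.mem_univ,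
      if_true] at this
    linarith
  have hy : ∀ i : Fin (m + 1), c (Sum.inr (some i)) + c (Sum.inr none) = 0 := by
    intro i
    have := heval (0, Pi.single i 1)
    simp only [Fintype.sum_sum_type, Fintype.sum_option, formA, cx_apply, cy_apply,
      LinearMap.sum_apply, Pi.zero_apply, Finset.sum_const_zero, mul_zero, add_zero, zero_add]
      at this
    simp only [Pi.single_apply, mul_ite, mul_one, mul_zero, Finset.sum_ite_eq', Finset.mem_univ,
      if_true] at this
    linarith
  have hx0 : c (Sum.inl none) = 0 := by
    by_contra h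
    refine card_gt (half Sum.inl) (half_injective Sum.inl_injective)
      (half_mem (hmem _ h) fun i => hmem _ ?_) hS
    intro h2
    have := hx i
    rw [h2, zero_add] at this
    exact h this
  have hy0 : c (Sum.inr none) = 0 := by
    by_contra h
    refine card_gt (half Sum.inr) (half_injective Sum.inr_injective)
      (half_mem (hmem _ h) fun i => hmem _ ?_) hS
    intro h2
    have := hy i
    rw [h2, zero_add] at this
    exact h this
  have hall : ∀ i, c i = 0 := by
    rintro ((_ | i) | (_ | i))
    · exact hx0
    · have := hx i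
      rw [hx0, add_zero] at this
      exact this
    · exact hy0
    · have := hy i
      rw [hy0, add_zero] at this
      exact this
  have := hall i
  simpa [hc, hi] using this

theorem indepB {m : ℕ} (S : Finset (Idx m)) (hS : S.card ≤ m + 1) :
    LinearIndepOn ℝ (formB (m := m)) (S : Set (Idx m)) := by
  classical
  rw [linearIndepOn_finset_iff]
  intro g hg i hi
  set c : Idx m → ℝ := fun i => if i ∈ S then g i else 0 with hc
  have hsum : ∑ i, c i • formB i = 0 := by
    rw [← hg, ← Finset.sum_subset (Finset.subset_univ S)]
    · exact Finset.sum_congr rfl fun i hi => by rw [hc]; simp [hi]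
    · intro i _ hi
      simp [hc, hi]
  have hmem : ∀ i, c i ≠ 0 → i ∈ S := by
    intro i hi
    by_contra h
    exact hi (by simp [hc, h])
  have heval : ∀ p : Space m, ∑ i, c i * formB i p = 0 := by
    intro p
    have := LinearMap.congr_fun hsum p
    simpa [LinearMap.sum_apply] using this
  have hx : ∀ i : Fin m, c (Sum.inl (some i.succ)) + c (Sum.inl none) = 0 := by
    intro i
    have := heval (Pi.single i.succ 1, 0)
    simp only [Fintype.sum_sum_type, Fintype.sum_option, formB, cx_apply, cy_apply,
      LinearMap.sum_apply, LinearMap.add_apply, Pi.zero_apply, Finset.sum_const_zero, mul_zero,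
      add_zero] at this
    simp [Pi.single_apply] at this
    linarith
  have hx00 : c (Sum.inl (some 0)) + c (Sum.inl none) + c (Sum.inr none) = 0 := by
    have := heval (Pi.single 0 1, 0)
    simp only [Fintype.sum_sum_type, Fintype.sum_option, formB, cx_apply, cy_apply,
      LinearMap.sum_apply, LinearMap.add_apply, Pi.zero_apply, Finset.sum_const_zero, mul_zero,
      add_zero] at this
    simp [Pi.single_apply] at this
    linarith
  have hy : ∀ i : Fin m, c (Sum.inr (some i.succ)) + c (Sum.inr none) = 0 := by
    intro i
    have := heval (0, Pi.single i.succ 1)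
    simp only [Fintype.sum_sum_type, Fintype.sum_option, formB, cx_apply, cy_apply,
      LinearMap.sum_apply, LinearMap.add_apply, Pi.zero_apply, Finset.sum_const_zero, mul_zero,
      add_zero, zero_add] at this
    simp [Pi.single_apply] at this
    linarith
  have hy0 : c (Sum.inr (some 0)) = 0 := by
    have := heval (0, Pi.single 0 1)
    simp only [Fintype.sum_sum_type, Fintype.sum_option, formB, cx_apply, cy_apply,
      LinearMap.sum_apply, LinearMap.add_apply, Pi.zero_apply, Finset.sum_const_zero, mul_zero,
      add_zero, zero_add] at this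
    simp [Pi.single_apply] at this
    linarith
  have hyn : c (Sum.inr none) = 0 := by
    by_contra h
    obtain ⟨z, hz, hzr⟩ : ∃ z : Option (Fin (m + 1)), c (Sum.inl z) ≠ 0 ∧ True := by
      by_cases h2 : c (Sum.inl none) = 0
      · refine ⟨some 0, fun h3 => h ?_, trivial⟩
        rw [h2, h3] at hx00
        linarith
      · exact ⟨none, h2, trivial⟩
    refine card_gt (S := S) (Fin.cons (Sum.inl z) (Fin.cons (Sum.inr none)
      (fun i : Fin m => Sum.inr (some i.succ)))) ?_ ?_ hS
    · rw [Fin.cons_injective_iff, Fin.cons_injective_iff]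
      refine ⟨?_, ?_, ?_⟩
      · rintro ⟨i, hi⟩
        revert hi
        refine Fin.cases ?_ (fun j => ?_) i
        · simp
        · simp
      · rintro ⟨i, hi⟩
        simp at hi
      · intro i j hij
        simpa using hij
    · intro i
      refine Fin.cases ?_ (fun i => ?_) i
      · exact hmem _ hz
      · refine Fin.cases ?_ (fun j => ?_) i
        · exact hmem _ h
        · refine hmem _ fun h2 => ?_
          simp only [Fin.cons_succ] at h2
          have := hy j
          rw [h2, zero_add] at this
          exact h this
  have hxn : c (Sum.inl none) = 0 := by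
    by_contra h
    refine card_gt (half Sum.inl) (half_injective Sum.inl_injective)
      (half_mem (hmem _ h) fun i => hmem _ ?_) hS
    intro h2
    revert h2
    refine Fin.cases ?_ (fun j => ?_) i
    · intro h2
      rw [h2, hyn] at hx00
      apply h
      linarith
    · intro h2
      have := hx j
      rw [h2, zero_add] at this
      exact h this
  have hall : ∀ i, c i = 0 := by
    rintro ((_ | i) | (_ | i))
    · exact hxn
    · refine Fin.cases ?_ (fun j => ?_) i
      · rw [hxn, hyn] at hx00
        linarith
      · have := hx j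
        rw [hxn, add_zero] at this
        exact this
    · exact hyn
    · refine Fin.cases hy0 (fun j => ?_) i
      have := hy j
      rw [hyn, add_zero] at this
      exact this
  have := hall i
  simpa [hc, hi] using this

theorem distinct_of_indep {m : ℕ} (hm : 1 ≤ m) (f : Idx m → Space m →ₗ[ℝ] ℝ)
    (h : ∀ S : Finset (Idx m), S.card ≤ m + 1 → LinearIndepOn ℝ f (S : Set (Idx m)))
    (i j : Idx m) (hij : i ≠ j) (c : ℝ) : f i ≠ c • f j := by
  classical
  intro heq
  have h1 := h {i, j} ((Finset.card_insert_le _ _).trans (by simp; omega))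
  rw [linearIndepOn_finset_iff] at h1
  have h2 := h1 (fun k => if k = i then 1 else -c) (by
    rw [Finset.sum_pair hij]
    simp [hij.symm, heq]) i (by simp)
  simp at h2

theorem ne_zero_of_indep {m : ℕ} (f : Idx m → Space m →ₗ[ℝ] ℝ)
    (h : ∀ S : Finset (Idx m), S.card ≤ m + 1 → LinearIndepOn ℝ f (S : Set (Idx m)))
    (i : Idx m) : f i ≠ 0 := by
  classical
  intro heq
  have h1 := h {i} (by simp)
  rw [linearIndepOn_finset_iff] at h1
  have h2 := h1 (fun _ => 1) (by simp [heq]) i (by simp)
  simp at h2

/-- The first arrangement. -/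
def arrA (m : ℕ) (hm : 1 ≤ m) : Arrangement (Idx m) (Space m) where
  form := formA
  ne_zero := ne_zero_of_indep _ indepA
  distinct := distinct_of_indep hm _ indepA

/-- The second arrangement. -/
def arrB (m : ℕ) (hm : 1 ≤ m) : Arrangement (Idx m) (Space m) where
  form := formB
  ne_zero := ne_zero_of_indep _ indepB
  distinct := distinct_of_indep hm _ indepB

/-! ### The homeomorphism of the complements -/

/-- The map on points: the second vector is rescaled, except for its first coordinate, so that its
first coordinate is replaced by the first coordinate of the first vector. -/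
noncomputable def fwd {m : ℕ} (p : Space m) : Space m :=
  (p.1, Fin.cons (p.2 0) (fun i => p.1 0 / p.2 0 * p.2 i.succ))

/-- The inverse map. -/
noncomputable def bwd {m : ℕ} (p : Space m) : Space m :=
  (p.1, Fin.cons (p.2 0) (fun i => p.2 0 / p.1 0 * p.2 i.succ))

theorem formB_fwd {m : ℕ} (p : Space m) (hy : p.2 0 ≠ 0) :
    (∀ o, formB (Sum.inl o) (fwd p) = formA (Sum.inl o) p) ∧
    formB (Sum.inr (some 0)) (fwd p) = formA (Sum.inr (some 0)) p ∧
    (∀ i : Fin m, formB (Sum.inr (some i.succ)) (fwd p) =
      p.1 0 / p.2 0 * formA (Sum.inr (some i.succ)) p) ∧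
    formB (Sum.inr none) (fwd p) = p.1 0 / p.2 0 * formA (Sum.inr none) p := by
  refine ⟨?_, ?_, ?_, ?_⟩
  · rintro (_ | i)
    · simp [formA, formB, fwd, cx_apply, LinearMap.sum_apply]
    · simp [formA, formB, fwd, cx_apply]
  · simp [formA, formB, fwd, cy_apply]
  · intro i
    simp [formA, formB, fwd, cy_apply]
  · simp only [formA, formB, fwd, cy_apply, cx_apply, LinearMap.sum_apply, LinearMap.add_apply,
      Fin.cons_succ, Fin.sum_univ_succ, mul_add, Finset.mul_sum]
    rw [div_mul_cancel₀ _ hy]

theorem formA_bwd {m : ℕ} (p : Space m) (hx : p.1 0 ≠ 0) :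
    (∀ o, formA (Sum.inl o) (bwd p) = formB (Sum.inl o) p) ∧
    formA (Sum.inr (some 0)) (bwd p) = formB (Sum.inr (some 0)) p ∧
    (∀ i : Fin m, formA (Sum.inr (some i.succ)) (bwd p) =
      p.2 0 / p.1 0 * formB (Sum.inr (some i.succ)) p) ∧
    formA (Sum.inr none) (bwd p) = p.2 0 / p.1 0 * formB (Sum.inr none) p := by
  refine ⟨?_, ?_, ?_, ?_⟩
  · rintro (_ | i)
    · simp [formA, formB, bwd, cx_apply, LinearMap.sum_apply]
    · simp [formA, formB, bwd, cx_apply]
  · simp [formA, formB, bwd, cy_apply]
  · intro i
    simp [formA, formB, bwd, cy_apply]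
  · simp only [formA, formB, bwd, cy_apply, cx_apply, LinearMap.sum_apply, LinearMap.add_apply,
      Fin.cons_succ, Fin.cons_zero, Fin.sum_univ_succ, mul_add, Finset.mul_sum]
    rw [div_mul_cancel₀ _ hx]

theorem fwd_mem {m : ℕ} {p : Space m} (h : ∀ i, formA (m := m) i p ≠ 0) :
    ∀ i, formB (m := m) i (fwd p) ≠ 0 := by
  have hx : p.1 0 ≠ 0 := h (Sum.inl (some 0))
  have hy : p.2 0 ≠ 0 := h (Sum.inr (some 0))
  obtain ⟨h1, h2, h3, h4⟩ := formB_fwd p hy
  rintro (o | (_ | i))
  · rw [h1]
    exact h _
  · rw [h4]
    exact mul_ne_zero (div_ne_zero hx hy) (h _)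
  · refine Fin.cases ?_ (fun i => ?_) i
    · rw [h2]
      exact h _
    · rw [h3]
      exact mul_ne_zero (div_ne_zero hx hy) (h _)

theorem bwd_mem {m : ℕ} {p : Space m} (h : ∀ i, formB (m := m) i p ≠ 0) :
    ∀ i, formA (m := m) i (bwd p) ≠ 0 := by
  have hx : p.1 0 ≠ 0 := h (Sum.inl (some 0))
  have hy : p.2 0 ≠ 0 := h (Sum.inr (some 0))
  obtain ⟨h1, h2, h3, h4⟩ := formA_bwd p hx
  rintro (o | (_ | i))
  · rw [h1]
    exact h _
  · rw [h4]
    exact mul_ne_zero (div_ne_zero hy hx) (h _)
  · refine Fin.cases ?_ (fun i => ?_) i
    · rw [h2]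
      exact h _
    · rw [h3]
      exact mul_ne_zero (div_ne_zero hy hx) (h _)

theorem bwd_fwd {m : ℕ} {p : Space m} (hx : p.1 0 ≠ 0) (hy : p.2 0 ≠ 0) : bwd (fwd p) = p := by
  refine Prod.ext rfl ?_
  funext i
  refine Fin.cases ?_ (fun i => ?_) i
  · simp [bwd, fwd]
  · simp only [bwd, fwd, Fin.cons_succ, Fin.cons_zero]
    field_simp

theorem fwd_bwd {m : ℕ} {p : Space m} (hx : p.1 0 ≠ 0) (hy : p.2 0 ≠ 0) : fwd (bwd p) = p := by
  refine Prod.ext rfl ?_
  funext i
  refine Fin.cases ?_ (fun i => ?_) i
  · simp [bwd, fwd]
  · simp only [bwd, fwd, Fin.cons_succ, Fin.cons_zero]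
    field_simp

/-- The homeomorphism of the complements. -/
noncomputable def homeo (m : ℕ) (hm : 1 ≤ m) : (arrA m hm).compl ≃ₜ (arrB m hm).compl where
  toFun p := ⟨fwd p.1, fwd_mem p.2⟩
  invFun p := ⟨bwd p.1, bwd_mem p.2⟩
  left_inv p := Subtype.ext (bwd_fwd (p.2 (Sum.inl (some 0))) (p.2 (Sum.inr (some 0))))
  right_inv p := Subtype.ext (fwd_bwd (p.2 (Sum.inl (some 0))) (p.2 (Sum.inr (some 0))))
  continuous_toFun := by
    refine Continuous.subtype_mk ?_ _
    refine Continuous.prodMk (by fun_prop) ?_
    refine continuous_pi fun i => ?_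
    refine Fin.cases ?_ (fun i => ?_) i
    · simp only [Fin.cons_zero]
      fun_prop
    · simp only [Fin.cons_succ]
      refine Continuous.mul (Continuous.div (by fun_prop) (by fun_prop) ?_) (by fun_prop)
      exact fun p => p.2 (Sum.inr (some 0))
  continuous_invFun := by
    refine Continuous.subtype_mk ?_ _
    refine Continuous.prodMk (by fun_prop) ?_
    refine continuous_pi fun i => ?_
    refine Fin.cases ?_ (fun i => ?_) i
    · simp only [Fin.cons_zero]
      fun_prop
    · simp only [Fin.cons_succ]
      refine Continuous.mul (Continuous.div (by fun_prop) (by fun_prop) ?_) (by fun_prop)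
      exact fun p => p.2 (Sum.inl (some 0))

/-- The induced bijection of the sets of connected components. -/
noncomputable def ccEquiv {α β : Type} [TopologicalSpace α] [TopologicalSpace β] (e : α ≃ₜ β) :
    ConnectedComponents α ≃ ConnectedComponents β where
  toFun := e.continuous.connectedComponentsMap
  invFun := e.symm.continuous.connectedComponentsMap
  left_inv C := by
    obtain ⟨x, rfl⟩ := ConnectedComponents.surjective_coe C
    show e.symm.continuous.connectedComponentsMap (e.continuous.connectedComponentsMap (.mk x)) = _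
    rw [Continuous.connectedComponentsMap_mk, Continuous.connectedComponentsMap_mk,
      e.symm_apply_apply]
  right_inv C := by
    obtain ⟨x, rfl⟩ := ConnectedComponents.surjective_coe C
    show e.continuous.connectedComponentsMap (e.symm.continuous.connectedComponentsMap (.mk x)) = _
    rw [Continuous.connectedComponentsMap_mk, Continuous.connectedComponentsMap_mk,
      e.apply_symm_apply]

theorem ccEquiv_coe {α β : Type} [TopologicalSpace α] [TopologicalSpace β] (e : α ≃ₜ β) (x : α) :
    ccEquiv e (x : ConnectedComponents α) = (e x : ConnectedComponents β) := rfl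

theorem ccEquiv_symm_coe {α β : Type} [TopologicalSpace α] [TopologicalSpace β] (e : α ≃ₜ β)
    (x : β) : (ccEquiv e).symm (x : ConnectedComponents β) =
      (e.symm x : ConnectedComponents α) := rfl

/-- In characteristic two the indicator of positivity is additive on products of three factors. -/
theorem ite_div_mul (R : Type) [CommRing R] [CharP R 2] {a b c : ℝ} (ha : a ≠ 0) (hb : b ≠ 0)
    (hc : c ≠ 0) : (if 0 < a / b * c then (1 : R) else 0) =
      (if 0 < a then 1 else 0) + (if 0 < b then 1 else 0) + (if 0 < c then 1 else 0) := by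
  have h2 : (1 : R) + 1 = 0 := CharTwo.add_self_eq_zero 1
  rcases lt_or_gt_of_ne ha with ha | ha <;> rcases lt_or_gt_of_ne hb with hb | hb <;>
    rcases lt_or_gt_of_ne hc with hc | hc
  · have : ¬ 0 < a / b * c := not_lt.2 (mul_nonpos_of_nonneg_of_nonpos
      (div_pos_of_neg_of_neg ha hb).le hc.le)
    simp [this, ha.not_gt, hb.not_gt, hc.not_gt]
  · have : 0 < a / b * c := mul_pos (div_pos_of_neg_of_neg ha hb) hc
    simp [this, ha.not_gt, hb.not_gt, hc]
  · have : 0 < a / b * c := mul_pos_of_neg_of_neg (div_neg_of_neg_of_pos ha hb) hc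
    simp [this, ha.not_gt, hb, hc.not_gt]
  · have : ¬ 0 < a / b * c := not_lt.2 (mul_nonpos_of_nonpos_of_nonneg
      (div_neg_of_neg_of_pos ha hb).le hc.le)
    simp [this, ha.not_gt, hb, hc, h2]
  · have : 0 < a / b * c := mul_pos_of_neg_of_neg (div_neg_of_pos_of_neg ha hb) hc
    simp [this, ha, hb.not_gt, hc.not_gt]
  · have : ¬ 0 < a / b * c := not_lt.2 (mul_nonpos_of_nonpos_of_nonneg
      (div_neg_of_pos_of_neg ha hb).le hc.le)
    simp [this, ha, hb.not_gt, hc, h2]
  · have : ¬ 0 < a / b * c := not_lt.2 (mul_nonpos_of_nonneg_of_nonpos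
      (div_pos ha hb).le hc.le)
    simp [this, ha, hb, hc.not_gt, h2]
  · have : 0 < a / b * c := mul_pos (div_pos ha hb) hc
    simp [this, ha, hb, hc, h2]

theorem filteredIso (m : ℕ) (hm : 1 ≤ m) (R : Type) [CommRing R] [CharP R 2] :
    FilteredIso (arrA m hm) (arrB m hm) R := by
  classical
  refine filteredIso_of_equiv _ _ R (ccEquiv (homeo m hm)) ?_ ?_
  · intro i
    rcases i with o | (_ | i)
    · convert heaviside_mem_lin (arrB m hm) R (Sum.inl o) using 1
      funext C
      obtain ⟨y, rfl⟩ := ConnectedComponents.surjective_coe C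
      rw [ccEquiv_symm_coe, heaviside_coe, heaviside_coe]
      have h := (formA_bwd y.1 (y.2 (Sum.inl (some 0)))).1 o
      change (if 0 < formA (Sum.inl o) (bwd y.1) then (1 : R) else 0) =
        if 0 < formB (Sum.inl o) y.1 then 1 else 0
      rw [h]
    · have hmem := (lin (arrB m hm) R).add_mem ((lin (arrB m hm) R).add_mem
        (heaviside_mem_lin (arrB m hm) R (Sum.inr (some 0)))
        (heaviside_mem_lin (arrB m hm) R (Sum.inl (some 0))))
        (heaviside_mem_lin (arrB m hm) R (Sum.inr none))
      convert hmem using 1
      funext C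
      obtain ⟨y, rfl⟩ := ConnectedComponents.surjective_coe C
      simp only [Pi.add_apply]
      rw [ccEquiv_symm_coe, heaviside_coe, heaviside_coe, heaviside_coe, heaviside_coe]
      have h := (formA_bwd y.1 (y.2 (Sum.inl (some 0)))).2.2.2
      change (if 0 < formA (Sum.inr none) (bwd y.1) then (1 : R) else 0) =
        (if 0 < y.1.2 0 then 1 else 0) + (if 0 < y.1.1 0 then 1 else 0) +
        if 0 < formB (Sum.inr none) y.1 then 1 else 0
      rw [h]
      exact ite_div_mul R (y.2 (Sum.inr (some 0))) (y.2 (Sum.inl (some 0)))
        (y.2 (Sum.inr none))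
    · revert i
      intro i
      refine Fin.cases ?_ (fun i => ?_) i
      · convert heaviside_mem_lin (arrB m hm) R (Sum.inr (some 0)) using 1
        funext C
        obtain ⟨y, rfl⟩ := ConnectedComponents.surjective_coe C
        rw [ccEquiv_symm_coe, heaviside_coe, heaviside_coe]
        have h := (formA_bwd y.1 (y.2 (Sum.inl (some 0)))).2.1
        change (if 0 < formA (Sum.inr (some 0)) (bwd y.1) then (1 : R) else 0) =
          if 0 < formB (Sum.inr (some 0)) y.1 then 1 else 0
        rw [h]
      · have hmem := (lin (arrB m hm) R).add_mem ((lin (arrB m hm) R).add_mem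
          (heaviside_mem_lin (arrB m hm) R (Sum.inr (some 0)))
          (heaviside_mem_lin (arrB m hm) R (Sum.inl (some 0))))
          (heaviside_mem_lin (arrB m hm) R (Sum.inr (some i.succ)))
        convert hmem using 1
        funext C
        obtain ⟨y, rfl⟩ := ConnectedComponents.surjective_coe C
        simp only [Pi.add_apply]
        rw [ccEquiv_symm_coe, heaviside_coe, heaviside_coe, heaviside_coe, heaviside_coe]
        have h := (formA_bwd y.1 (y.2 (Sum.inl (some 0)))).2.2.1 i
        change (if 0 < formA (Sum.inr (some i.succ)) (bwd y.1) then (1 : R) else 0) =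
          (if 0 < y.1.2 0 then 1 else 0) + (if 0 < y.1.1 0 then 1 else 0) +
          if 0 < formB (Sum.inr (some i.succ)) y.1 then 1 else 0
        rw [h]
        exact ite_div_mul R (y.2 (Sum.inr (some 0))) (y.2 (Sum.inl (some 0)))
          (y.2 (Sum.inr (some i.succ)))
  · intro i
    rcases i with o | (_ | i)
    · convert heaviside_mem_lin (arrA m hm) R (Sum.inl o) using 1
      funext C
      obtain ⟨y, rfl⟩ := ConnectedComponents.surjective_coe C
      rw [ccEquiv_coe, heaviside_coe, heaviside_coe]
      have h := (formB_fwd y.1 (y.2 (Sum.inr (some 0)))).1 o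
      change (if 0 < formB (Sum.inl o) (fwd y.1) then (1 : R) else 0) =
        if 0 < formA (Sum.inl o) y.1 then 1 else 0
      rw [h]
    · have hmem := (lin (arrA m hm) R).add_mem ((lin (arrA m hm) R).add_mem
        (heaviside_mem_lin (arrA m hm) R (Sum.inl (some 0)))
        (heaviside_mem_lin (arrA m hm) R (Sum.inr (some 0))))
        (heaviside_mem_lin (arrA m hm) R (Sum.inr none))
      convert hmem using 1
      funext C
      obtain ⟨y, rfl⟩ := ConnectedComponents.surjective_coe C
      simp only [Pi.add_apply]
      rw [ccEquiv_coe, heaviside_coe, heaviside_coe, heaviside_coe, heaviside_coe]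
      have h := (formB_fwd y.1 (y.2 (Sum.inr (some 0)))).2.2.2
      change (if 0 < formB (Sum.inr none) (fwd y.1) then (1 : R) else 0) =
        (if 0 < y.1.1 0 then 1 else 0) + (if 0 < y.1.2 0 then 1 else 0) +
        if 0 < formA (Sum.inr none) y.1 then 1 else 0
      rw [h]
      exact ite_div_mul R (y.2 (Sum.inl (some 0))) (y.2 (Sum.inr (some 0)))
        (y.2 (Sum.inr none))
    · revert i
      intro i
      refine Fin.cases ?_ (fun i => ?_) i
      · convert heaviside_mem_lin (arrA m hm) R (Sum.inr (some 0)) using 1
        funext C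
        obtain ⟨y, rfl⟩ := ConnectedComponents.surjective_coe C
        rw [ccEquiv_coe, heaviside_coe, heaviside_coe]
        have h := (formB_fwd y.1 (y.2 (Sum.inr (some 0)))).2.1
        change (if 0 < formB (Sum.inr (some 0)) (fwd y.1) then (1 : R) else 0) =
          if 0 < formA (Sum.inr (some 0)) y.1 then 1 else 0
        rw [h]
      · have hmem := (lin (arrA m hm) R).add_mem ((lin (arrA m hm) R).add_mem
          (heaviside_mem_lin (arrA m hm) R (Sum.inl (some 0)))
          (heaviside_mem_lin (arrA m hm) R (Sum.inr (some 0))))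
          (heaviside_mem_lin (arrA m hm) R (Sum.inr (some i.succ)))
        convert hmem using 1
        funext C
        obtain ⟨y, rfl⟩ := ConnectedComponents.surjective_coe C
        simp only [Pi.add_apply]
        rw [ccEquiv_coe, heaviside_coe, heaviside_coe, heaviside_coe, heaviside_coe]
        have h := (formB_fwd y.1 (y.2 (Sum.inr (some 0)))).2.2.1 i
        change (if 0 < formB (Sum.inr (some i.succ)) (fwd y.1) then (1 : R) else 0) =
          (if 0 < y.1.1 0 then 1 else 0) + (if 0 < y.1.2 0 then 1 else 0) +
          if 0 < formA (Sum.inr (some i.succ)) y.1 then 1 else 0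
        rw [h]
        exact ite_div_mul R (y.2 (Sum.inl (some 0))) (y.2 (Sum.inr (some 0)))
          (y.2 (Sum.inr (some i.succ)))

/-! ### The oriented matroids are different -/

theorem formA_eq_zero {m : ℕ} (p : Space m) (i : Idx m) (h : ∀ j, j ≠ i → formA j p = 0) :
    formA i p = 0 := by
  rcases i with (_ | i) | (_ | i)
  · simp only [formA, LinearMap.sum_apply]
    exact Finset.sum_eq_zero fun j _ => h (Sum.inl (some j)) (by simp)
  · have h1 := h (Sum.inl none) (by simp)
    simp only [formA, LinearMap.sum_apply] at h1
    have h2 : ∑ d, cx d p = cx i p := Finset.sum_eq_single i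
      (fun j _ hj => h (Sum.inl (some j)) (by simpa using hj))
      (fun hi => absurd (Finset.mem_univ i) hi)
    rw [h2] at h1
    exact h1
  · simp only [formA, LinearMap.sum_apply]
    exact Finset.sum_eq_zero fun j _ => h (Sum.inr (some j)) (by simp)
  · have h1 := h (Sum.inr none) (by simp)
    simp only [formA, LinearMap.sum_apply] at h1
    have h2 : ∑ d, cy d p = cy i p := Finset.sum_eq_single i
      (fun j _ hj => h (Sum.inr (some j)) (by simpa using hj))
      (fun hi => absurd (Finset.mem_univ i) hi)
    rw [h2] at h1
    exact h1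

theorem not_omIso (m : ℕ) (hm : 1 ≤ m) : ¬ OMIso (arrA m hm) (arrB m hm) := by
  classical
  rintro ⟨σ, ε, hε, h⟩
  -- the covector of the second arrangement with one nonzero entry
  set q : Space m := (0, Pi.single 0 1) with hq
  have hq1 : ∀ j : Idx m, j ≠ Sum.inr (some 0) → formB j q = 0 := by
    rintro ((_ | j) | (_ | j)) hj
    · simp [formB, LinearMap.sum_apply, cx_apply, hq]
    · simp [formB, cx_apply, hq]
    · simp [formB, LinearMap.sum_apply, cx_apply, cy_apply, hq]
    · have : j ≠ 0 := fun h => hj (by rw [h])
      simp [formB, cy_apply, hq, this]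
  have hq2 : formB (Sum.inr (some 0)) q = 1 := by
    simp [formB, cy_apply, hq]
  have h1 : (fun j : Idx m => SignType.sign (formB j q)) ∈ (arrB m hm).covectors :=
    ⟨q, fun j => rfl⟩
  rw [h] at h1
  obtain ⟨p, hp⟩ := h1
  have hp' : ∀ i, ε i * SignType.sign (formB (σ i) q) = SignType.sign (formA i p) := hp
  set i0 := σ.symm (Sum.inr (some 0)) with hi0
  have h2 : formA i0 p = 0 := by
    apply formA_eq_zero
    intro j hj
    have h3 : σ j ≠ Sum.inr (some 0) := by
      intro h4
      apply hj
      rw [hi0, ← h4, σ.symm_apply_apply]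
    have h4 := hp' j
    rw [hq1 _ h3, sign_zero, mul_zero] at h4
    exact sign_eq_zero_iff.1 h4.symm
  have h3 := hp' i0
  rw [h2, hi0, σ.apply_symm_apply, hq2, sign_zero, sign_one, mul_one] at h3
  exact hε _ h3

/-- For every `k = m + 1 ≥ 2` there are two real central arrangements of `2 k + 2` hyperplanes in a
space of dimension `2 k`, any `k` hyperplanes of each of them being independent, whose
Varchenko-Gelfand algebras are isomorphic as filtered algebras over every commutative ring of
characteristic two, while their oriented matroids are not isomorphic. -/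
theorem result (m : ℕ) (hm : 1 ≤ m) :
    ∃ A B : Arrangement (Option (Fin (m + 1)) ⊕ Option (Fin (m + 1)))
      ((Fin (m + 1) → ℝ) × (Fin (m + 1) → ℝ)),
      (∀ S : Finset (Option (Fin (m + 1)) ⊕ Option (Fin (m + 1))), S.card ≤ m + 1 →
        LinearIndepOn ℝ A.form (S : Set _) ∧ LinearIndepOn ℝ B.form (S : Set _)) ∧
      (∀ (R : Type) [CommRing R] [CharP R 2], FilteredIso A B R) ∧ ¬ OMIso A B :=
  ⟨arrA m hm, arrB m hm, fun S hS => ⟨indepA S hS, indepB S hS⟩,
    fun R _ _ => filteredIso m hm R, not_omIso m hm⟩

end Pool.Agent.Results.MP_157dc7_co.CharTwoPairs
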